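import Pool.Agent.H365.TF.Stm

/-!
The permutational wreath product of finitely generated groups over a transitive set is finitely generated.
-/

set_option autoImplicit false

namespace Pool.Agent.H365.TF

open Pool.Agent.H365 (WreathProduct)

namespace WFG

/-- `l ↦ delta x l` as a homomorphism -/
noncomputable def deltaHom {X L : Type} [Group L] (x : X) : L →* DirectPower X L :=
  MonoidHom.mk' (delta x) (delta_mul x)

theorem mem_of_deltas {X L : Type} [Group L] (H : Subgroup (DirectPower X L))
    (hH : ∀ (x : X) (l : L), delta x l ∈ H) (f : DirectPower X L) : f ∈ H := by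
  classical
  have key : ∀ s : Finset X, ∀ f : DirectPower X L, (∀ x, x ∉ s → f.1 x = 1) → f ∈ H := by
    intro s
    induction s using Finset.induction_on with
    | empty =>
      intro f hf
      have h1 : f = 1 := by
        apply Subtype.ext
        funext x
        exact hf x (Finset.notMem_empty x)
      rw [h1]
      exact H.one_mem
    | insert a s ha ih =>
      intro f hf
      have h1 : (delta a (f.1 a))⁻¹ * f ∈ H := by
        refine ih _ fun x hx => ?_
        show ((delta a (f.1 a)).1 x)⁻¹ * f.1 x = 1
        by_cases hxa : x = a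
        · rw [hxa, delta_same, inv_mul_cancel]
        · rw [delta_ne hxa, hf x (by
            rw [Finset.mem_insert]
            rintro (h | h)
            · exact hxa h
            · exact hx h), inv_one, one_mul]
      have h2 := H.mul_mem (hH a (f.1 a)) h1
      rw [mul_inv_cancel_left] at h2
      exact h2
  exact key f.2.toFinset f fun x hx => by
    by_contra hcon
    exact hx ((Set.Finite.mem_toFinset _).mpr hcon)

end WFG

theorem t_WFG : S_WFG := by
  intro G L _ _ K hG hL
  rw [Group.fg_iff] at hG hL ⊢
  obtain ⟨SG, hSG, hSGf⟩ := hG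
  obtain ⟨SL, hSL, hSLf⟩ := hL
  let x₀ : G ⧸ K := QuotientGroup.mk 1
  let T : Set (WreathProduct L (G ⧸ K) G) :=
    (SemidirectProduct.inr '' SG) ∪
      ((SemidirectProduct.inl.comp (WFG.deltaHom x₀) : L →* WreathProduct L (G ⧸ K) G) '' SL)
  refine ⟨T, ?_, (hSGf.image _).union (hSLf.image _)⟩
  have h1 : ∀ g : G, (SemidirectProduct.inr g : WreathProduct L (G ⧸ K) G) ∈ Subgroup.closure T := by
    intro g
    have h2 : g ∈ Subgroup.closure SG := by
      rw [hSG]
      exact Subgroup.mem_top g
    have h3 := Subgroup.mem_map_of_mem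
      (SemidirectProduct.inr : G →* WreathProduct L (G ⧸ K) G) h2
    rw [MonoidHom.map_closure] at h3
    exact Subgroup.closure_mono Set.subset_union_left h3
  have h2 : ∀ l : L, (SemidirectProduct.inl (delta x₀ l) : WreathProduct L (G ⧸ K) G) ∈
      Subgroup.closure T := by
    intro l
    have h2 : l ∈ Subgroup.closure SL := by
      rw [hSL]
      exact Subgroup.mem_top l
    have h3 := Subgroup.mem_map_of_mem
      (SemidirectProduct.inl.comp (WFG.deltaHom x₀) : L →* WreathProduct L (G ⧸ K) G) h2
    rw [MonoidHom.map_closure] at h3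
    exact Subgroup.closure_mono Set.subset_union_right h3
  have h3 : ∀ (x : G ⧸ K) (l : L), delta x l ∈
      (Subgroup.closure T).comap (SemidirectProduct.inl : _ →* WreathProduct L (G ⧸ K) G) := by
    intro x l
    obtain ⟨g, rfl⟩ := QuotientGroup.mk_surjective x
    have h4 : (QuotientGroup.mk g : G ⧸ K) = g • x₀ := by
      have h5 : g • x₀ = (QuotientGroup.mk (g * 1) : G ⧸ K) := rfl
      rw [h5, mul_one]
    rw [Subgroup.mem_comap, h4, ← permute_delta, SemidirectProduct.inl_aut]
    exact Subgroup.mul_mem _ (Subgroup.mul_mem _ (h1 g) (h2 l)) (h1 _)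
  rw [eq_top_iff]
  intro w _
  rw [← SemidirectProduct.inl_left_mul_inr_right w]
  exact Subgroup.mul_mem _ (WFG.mem_of_deltas _ h3 w.left) (h1 w.right)

end Pool.Agent.H365.TF
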